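import Pool.Agent.L5helper16.LG.Defs

/-!
# LG B5: the lower bound of the hitting probability (helper96)
-/

set_option autoImplicit false

namespace Pool.Agent.L5helper96.LG

open Finset Pool.Agent.L5helper16.LG

lemma ff_zero (Q : Finset ℕ) : ff Q 0 = 1 := by
  simp [ff]

lemma exp_quad {v : ℝ} (h0 : 0 ≤ v) (h1 : v ≤ 1 / 4) : Real.exp (-(v * (1 + v))) ≤ 1 - v := by
  have h2 := Real.quadratic_le_exp_of_nonneg (show 0 ≤ v * (1 + v) by positivity)
  rw [Real.exp_neg, inv_le_iff_one_le_mul₀ (Real.exp_pos _)]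
  have h3 : 1 ≤ (1 - v) * (1 + v * (1 + v) + (v * (1 + v)) ^ 2 / 2) := by
    have h4 : (1 - v) * (1 + v * (1 + v) + (v * (1 + v)) ^ 2 / 2)
        = 1 + v ^ 2 * (1 - v - v ^ 2 - v ^ 3) / 2 := by ring
    have h5 : 0 ≤ 1 - v - v ^ 2 - v ^ 3 := by
      have h6 : v ^ 2 ≤ 1 / 4 := by nlinarith
      have h7 : v ^ 3 ≤ 1 / 4 := by
        have : v ^ 3 = v * v ^ 2 := by ring
        rw [this]
        nlinarith [sq_nonneg v]
      linarith
    rw [h4]
    have : 0 ≤ v ^ 2 * (1 - v - v ^ 2 - v ^ 3) := by positivity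
    linarith
  have h8 : (1 - v) * (1 + v * (1 + v) + (v * (1 + v)) ^ 2 / 2)
      ≤ (1 - v) * Real.exp (v * (1 + v)) := mul_le_mul_of_nonneg_left h2 (by linarith)
  linarith

lemma pow_bound {M m : ℕ} (hM : 2 ≤ M) (hm : 4 * m ≤ M) {j : ℕ} (hj : j ≤ m) :
    ((1 - 1 / (M : ℝ))⁻¹) ^ j ≤ 1 + 2 * m / M := by
  have hM0 : (0 : ℝ) < M := by
    have : 0 < M := by omega
    exact_mod_cast this
  have hM2 : (2 : ℝ) ≤ M := by exact_mod_cast hM
  have hinv : 1 / (M : ℝ) ≤ 1 / 2 := one_div_le_one_div_of_le (by norm_num) hM2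
  have hinv0 : 0 < 1 / (M : ℝ) := by positivity
  have hk : 1 ≤ (1 - 1 / (M : ℝ))⁻¹ := by
    rw [one_le_inv₀ (by linarith)]
    linarith
  have h1 : ((1 - 1 / (M : ℝ))⁻¹) ^ j ≤ ((1 - 1 / (M : ℝ))⁻¹) ^ m := pow_le_pow_right₀ hk hj
  refine h1.trans ?_
  have hb := one_add_mul_le_pow (show (-2 : ℝ) ≤ -(1 / (M : ℝ)) by linarith) m
  have hx : (m : ℝ) / M ≤ 1 / 4 := by
    rw [div_le_iff₀ hM0]
    have : (4 : ℝ) * m ≤ M := by exact_mod_cast hm
    linarith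
  have hx0 : 0 ≤ (m : ℝ) / M := by positivity
  have h2 : 1 - (m : ℝ) / M ≤ (1 - 1 / (M : ℝ)) ^ m := by
    have e1 : 1 + (m : ℝ) * -(1 / (M : ℝ)) = 1 - (m : ℝ) / M := by ring
    have e2 : 1 + -(1 / (M : ℝ)) = 1 - 1 / (M : ℝ) := by ring
    rw [e1, e2] at hb
    exact hb
  rw [inv_pow]
  have h3 : 0 < (1 - 1 / (M : ℝ)) ^ m := pow_pos (by linarith) m
  rw [inv_le_iff_one_le_mul₀ h3]
  have h4 : (1 + 2 * (m : ℝ) / M) * (1 - (m : ℝ) / M)
      ≤ (1 + 2 * (m : ℝ) / M) * (1 - 1 / (M : ℝ)) ^ m :=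
    mul_le_mul_of_nonneg_left h2 (by positivity)
  have h5 : (1 + 2 * (m : ℝ) / M) * (1 - (m : ℝ) / M)
      = 1 + (m : ℝ) / M * (1 - 2 * ((m : ℝ) / M)) := by ring
  have h6 : 0 ≤ (m : ℝ) / M * (1 - 2 * ((m : ℝ) / M)) := mul_nonneg hx0 (by linarith)
  linarith

/-- B5 -/
theorem b5 (h4 : St_B4) : St_B5 := by
  intro M hM Q hQ m hm hV
  obtain ⟨hb, -, -, hstep, -⟩ := h4 M hM Q hQ
  have hM0 : (0 : ℝ) < M := by
    have : 0 < M := by omega
    exact_mod_cast this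
  have hV0 : 0 ≤ VV Q := by
    refine Finset.prod_nonneg fun p hp => ?_
    have h1 : (1 : ℝ) ≤ p := by
      have := hQ p hp
      have h2 : 1 ≤ p := by omega
      exact_mod_cast h2
    have : 1 / (p : ℝ) ≤ 1 := by
      rw [div_le_one (by linarith)]; exact h1
    linarith
  have hx : (m : ℝ) / M ≤ 1 / 4 := by
    rw [div_le_iff₀ hM0]
    have : (4 : ℝ) * m ≤ M := by exact_mod_cast hm
    linarith
  have hx0 : 0 ≤ (m : ℝ) / M := by positivity
  have hx2 : 2 * (m : ℝ) / M = 2 * ((m : ℝ) / M) := by ring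
  set v := VV Q * (1 + 2 * m / M) with hv
  have hv0 : 0 ≤ v := mul_nonneg hV0 (by rw [hx2]; linarith)
  have hv1 : v ≤ 1 / 4 := by
    rw [hv, hx2]
    nlinarith
  have hv2 : v ≤ 2 * VV Q := by
    rw [hv, hx2]
    nlinarith
  have hind : ∀ j, j ≤ m → (1 - v) ^ j ≤ ff Q j := by
    intro j
    induction j with
    | zero => intro _; rw [pow_zero, ff_zero]
    | succ j ih =>
      intro hj
      have h1 := ih (by omega)
      have h2 := hstep j (by omega)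
      have h3 := pow_bound hM hm (show j ≤ m by omega)
      have h5 := (hb j (by omega)).1
      have h6 : ((1 - 1 / (M : ℝ))⁻¹) ^ j * VV Q ≤ v := by
        rw [hv, mul_comm (VV Q)]
        exact mul_le_mul_of_nonneg_right h3 hV0
      have h7 : ((1 - 1 / (M : ℝ))⁻¹) ^ j * VV Q * ff Q j ≤ v * ff Q j :=
        mul_le_mul_of_nonneg_right h6 h5
      have h8 : (1 - v) * (1 - v) ^ j ≤ (1 - v) * ff Q j :=
        mul_le_mul_of_nonneg_left h1 (by linarith)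
      rw [pow_succ, mul_comm]
      linarith
  refine le_trans ?_ (hind m le_rfl)
  have h1 := exp_quad hv0 hv1
  have h2 : Real.exp (-(v * (1 + v))) ^ m ≤ (1 - v) ^ m :=
    pow_le_pow_left₀ (Real.exp_pos _).le h1 m
  refine le_trans ?_ h2
  rw [← Real.exp_nat_mul, Real.exp_le_exp]
  have h3 : (m : ℝ) * (v * (1 + v)) ≤ m * (v * (1 + 2 * VV Q)) :=
    mul_le_mul_of_nonneg_left (mul_le_mul_of_nonneg_left (by linarith) hv0) (by positivity)
  have h5 : (m : ℝ) * VV Q * (1 + 2 * m / M) * (1 + 2 * VV Q) = m * (v * (1 + 2 * VV Q)) := by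
    rw [hv]; ring
  rw [h5]
  linarith

end Pool.Agent.L5helper96.LG
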